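import Mathlib

/-!
# Representative perfect matchings of vector-labelled `K_{n,n}` (MP_26893d)

For `k = 4j` and `n = 2jq` with `q` odd there is a labelling of the edges of `K_{n,n}` by vectors of
`ℝ^k` of `ℓ₁`-norm at most `1`, with average label exactly `0`, for which every perfect matching has
error at least `k/4`.  Hence no bound of the form `C √k` is possible.
-/

namespace Pool.Agent.Results.MP_26893d_co.LinearLower

open Finset

/-- A labelling of the edges `(a, b)` of `K_{n,n}` by vectors of `ℝ^k` of `ℓ₁`-norm at most `1`. -/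
def IsLabelling (n k : ℕ) (h : Fin n → Fin n → Fin k → ℝ) : Prop :=
  ∀ a b, ∑ i, |h a b i| ≤ 1

/-- The error `‖h(M) - (1/n) h(K_{n,n})‖₁` of the perfect matching `M = {(a, σ a)}` of `K_{n,n}`
given by the bijection `σ` between the two sides. -/
noncomputable def err (n k : ℕ) (h : Fin n → Fin n → Fin k → ℝ) (σ : Equiv.Perm (Fin n)) : ℝ :=
  ∑ i, |(∑ a, h a (σ a) i) - (1 / (n : ℝ)) * ∑ a, ∑ b, h a b i|

/-- The family of labellings: average label `0`, all errors at least `k/4 = j`. -/
theorem family (j q : ℕ) (hj : 0 < j) (hq : Odd q) :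
    ∃ h : Fin (2 * j * q) → Fin (2 * j * q) → Fin (4 * j) → ℝ,
      IsLabelling (2 * j * q) (4 * j) h ∧ (∀ i, ∑ a, ∑ b, h a b i = 0) ∧
      ∀ σ : Equiv.Perm (Fin (2 * j * q)), (j : ℝ) ≤ err (2 * j * q) (4 * j) h σ := by
  classical
  let e1 : Fin (2 * j * q) ≃ Fin (2 * j) × Fin q := finProdFinEquiv.symm
  let e2 : Fin (2 * j * q) ≃ Fin 2 × Fin (j * q) :=
    (finCongr (by ring)).trans finProdFinEquiv.symm
  let γ : Fin (2 * j) × Fin 2 ≃ Fin (4 * j) := finProdFinEquiv.trans (finCongr (by ring))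
  let c : Fin (2 * j * q) → Fin (2 * j * q) → Fin (4 * j) := fun a b => γ ((e1 a).1, (e2 b).1)
  let ind : Fin (2 * j * q) → Fin (2 * j * q) → Fin (4 * j) → ℝ :=
    fun a b i => if c a b = i then 1 else 0
  have hjR : (0 : ℝ) < j := by exact_mod_cast hj
  have hind : ∀ i, ∑ a, ∑ b, ind a b i = (j : ℝ) * (q : ℝ) ^ 2 := by
    intro i
    obtain ⟨⟨i1, i2⟩, rfl⟩ := γ.surjective i
    have h1 : ∀ a b, ind a b (γ (i1, i2)) =
        (if (e1 a).1 = i1 then (1 : ℝ) else 0) * (if (e2 b).1 = i2 then (1 : ℝ) else 0) := by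
      intro a b
      simp only [ind, c, γ.injective.eq_iff, Prod.mk.injEq]
      by_cases hA : (e1 a).1 = i1 <;> by_cases hB : (e2 b).1 = i2 <;> simp [hA, hB]
    simp only [h1]
    rw [← Finset.sum_mul_sum]
    have hA : ∑ a, (if (e1 a).1 = i1 then (1 : ℝ) else 0) = q := by
      rw [Equiv.sum_comp e1 (fun x : Fin (2 * j) × Fin q => if x.1 = i1 then (1 : ℝ) else 0),
        Fintype.sum_prod_type]
      rw [Finset.sum_comm]
      simp
    have hB : ∑ b, (if (e2 b).1 = i2 then (1 : ℝ) else 0) = (j : ℝ) * q := by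
      rw [Equiv.sum_comp e2 (fun x : Fin 2 × Fin (j * q) => if x.1 = i2 then (1 : ℝ) else 0),
        Fintype.sum_prod_type]
      rw [Finset.sum_comm]
      simp
    rw [hA, hB]; ring
  let h : Fin (2 * j * q) → Fin (2 * j * q) → Fin (4 * j) → ℝ :=
    fun a b i => (ind a b i - 1 / (4 * (j : ℝ))) / 2
  have hzero : ∀ i, ∑ a, ∑ b, h a b i = 0 := by
    intro i
    simp only [h]
    simp only [← Finset.sum_div, Finset.sum_sub_distrib, hind, Finset.sum_const, Finset.card_univ,
      Fintype.card_fin, nsmul_eq_mul]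
    push_cast
    field_simp
    ring
  refine ⟨h, ?_, hzero, ?_⟩
  · intro a b
    have h1 : ∀ i, |h a b i| ≤ (ind a b i + 1 / (4 * (j : ℝ))) / 2 := by
      intro i
      have h0 : 0 ≤ ind a b i := by
        simp only [ind]; split_ifs <;> norm_num
      have h2 : (0 : ℝ) ≤ 1 / (4 * (j : ℝ)) := by positivity
      rw [abs_le]
      constructor
      · show _ ≤ (ind a b i - 1 / (4 * (j : ℝ))) / 2
        linarith
      · show (ind a b i - 1 / (4 * (j : ℝ))) / 2 ≤ _
        linarith
    calc ∑ i, |h a b i| ≤ ∑ i, (ind a b i + 1 / (4 * (j : ℝ))) / 2 :=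
          Finset.sum_le_sum (fun i _ => h1 i)
      _ = 1 := by
          have h3 : ∑ i, ind a b i = 1 := by simp [ind]
          rw [← Finset.sum_div, Finset.sum_add_distrib, h3]
          simp only [Finset.sum_const, Finset.card_univ, Fintype.card_fin, nsmul_eq_mul]
          push_cast
          field_simp
          norm_num
      _ ≤ 1 := le_refl _
  · intro σ
    have hterm : ∀ i, (1 : ℝ) / 4 ≤
        |(∑ a, h a (σ a) i) - (1 / ((2 * j * q : ℕ) : ℝ)) * ∑ a, ∑ b, h a b i| := by
      intro i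
      rw [hzero, mul_zero, sub_zero]
      let N : ℤ := ((univ.filter (fun a => c a (σ a) = i)).card : ℤ)
      have hN : ∑ a, ind a (σ a) i = (N : ℝ) := by
        simp [ind, N]
      have hS : ∑ a, h a (σ a) i = ((2 * N - q : ℤ) : ℝ) / 4 := by
        simp only [h]
        rw [← Finset.sum_div, Finset.sum_sub_distrib, hN]
        simp only [Finset.sum_const, Finset.card_univ, Fintype.card_fin, nsmul_eq_mul]
        push_cast
        field_simp
        ring
      rw [hS, abs_div]
      have hodd : (2 * N - q : ℤ) ≠ 0 := by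
        obtain ⟨r, hr⟩ := hq
        omega
      have h1 : (1 : ℝ) ≤ |((2 * N - q : ℤ) : ℝ)| := by
        have := Int.one_le_abs hodd
        exact_mod_cast this
      have h4 : |(4 : ℝ)| = 4 := by norm_num
      rw [h4]
      linarith
    unfold err
    calc (j : ℝ) = ∑ i : Fin (4 * j), (1 : ℝ) / 4 := by
          simp only [Finset.sum_const, Finset.card_univ, Fintype.card_fin, nsmul_eq_mul]
          push_cast; ring
      _ ≤ _ := Finset.sum_le_sum (fun i _ => hterm i)

/-- **Q1 is false.**  For `k = 4j` and `n = 2jq` (`q` odd, so `n` can be arbitrarily large for given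
`k`) some labelling of `K_{n,n}` with average label `0` has all perfect matchings of error at least
`k/4`; hence there is no absolute constant `C` with `f_h(M) ≤ C √k` for some perfect matching. -/
theorem result :
    (∀ j q : ℕ, 0 < j → Odd q →
      ∃ h : Fin (2 * j * q) → Fin (2 * j * q) → Fin (4 * j) → ℝ,
        IsLabelling (2 * j * q) (4 * j) h ∧ (∀ i, ∑ a, ∑ b, h a b i = 0) ∧
        ∀ σ : Equiv.Perm (Fin (2 * j * q)), (j : ℝ) ≤ err (2 * j * q) (4 * j) h σ) ∧
    ¬ ∃ C : ℝ, ∀ n k : ℕ, 1 ≤ n → 1 ≤ k → ∀ h : Fin n → Fin n → Fin k → ℝ, IsLabelling n k h →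
      ∃ σ : Equiv.Perm (Fin n), err n k h σ ≤ C * Real.sqrt k := by
  refine ⟨family, ?_⟩
  rintro ⟨C, hC⟩
  -- choose `j` a perfect square `m²`, so that `√(4j) = 2m`
  obtain ⟨m, hm⟩ := exists_nat_gt (max (2 * C) 1)
  have hm1 : 1 < (m : ℝ) := lt_of_le_of_lt (le_max_right _ _) hm
  have hm2 : 2 * C < (m : ℝ) := lt_of_le_of_lt (le_max_left _ _) hm
  have hm0 : 0 < m := by
    have : (0 : ℝ) < m := by linarith
    exact_mod_cast this
  obtain ⟨h, hL, -, hE⟩ := family (m ^ 2) 1 (by positivity) odd_one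
  obtain ⟨σ, hσ⟩ := hC (2 * m ^ 2 * 1) (4 * m ^ 2) (by nlinarith) (by nlinarith) h hL
  have h1 := (hE σ).trans hσ
  have h2 : Real.sqrt ((4 * m ^ 2 : ℕ) : ℝ) = 2 * m := by
    push_cast
    rw [show (4 : ℝ) * (m : ℝ) ^ 2 = (2 * m) ^ 2 by ring]
    exact Real.sqrt_sq (by positivity)
  rw [h2] at h1
  push_cast at h1
  nlinarith

end Pool.Agent.Results.MP_26893d_co.LinearLower
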